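import Mathlib

/-! The fundamental group of the boundary of the genus `g` trace of a knot, as a quotient of the
free product of the knot group with a free group (van Kampen), and its class-two quotient. -/

set_option autoImplicit false

open Subgroup
open scoped commutatorElement

namespace Run7.h420

universe u

/-- The product of commutators `[a_1,b_1] ⋯ [a_g,b_g]` of the images of the free generators. -/
def commProd {P : Type u} [Group P] (g : ℕ) (x : Fin g ⊕ Fin g → P) : P :=
  (List.ofFn fun i : Fin g => ⁅x (Sum.inl i), x (Sum.inr i)⁆).prod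

/-- The free product of `G` with the free group on the `a_i`, `b_i`. -/
def W (g : ℕ) (G : Type u) [Group G] : Type u := Monoid.Coprod G (FreeGroup (Fin g ⊕ Fin g))

instance (g : ℕ) (G : Type u) [Group G] : Group (W g G) :=
  inferInstanceAs (Group (Monoid.Coprod G (FreeGroup (Fin g ⊕ Fin g))))

/-- the inclusion of `G` -/
def inG (g : ℕ) {G : Type u} [Group G] : G →* W g G :=
  (Monoid.Coprod.inl : G →* Monoid.Coprod G (FreeGroup (Fin g ⊕ Fin g)))

/-- the free generators `a_i` (`inl i`) and `b_i` (`inr i`) -/
def inF (g : ℕ) (G : Type u) [Group G] (s : Fin g ⊕ Fin g) : W g G :=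
  (Monoid.Coprod.inr (FreeGroup.of s) : Monoid.Coprod G (FreeGroup (Fin g ⊕ Fin g)))

/-- The relators: `[m, a_i]`, `[m, b_i]` and `l ([a_1,b_1] ⋯ [a_g,b_g])⁻¹`. -/
def relators (g : ℕ) {G : Type u} [Group G] (m l : G) : Set (W g G) :=
  {x | (∃ s, x = ⁅inG g m, inF g G s⁆) ∨ x = inG g l * (commProd g (inF g G))⁻¹}

/-- The group `⟨G, a_i, b_i | [m,a_i] = [m,b_i] = 1, l = ∏ [a_i,b_i]⟩`. If `G` is the group of a knot
`K` with meridian `m` and longitude `l`, this is the fundamental group of `∂X^g(K)`. -/
def TraceGroup (g : ℕ) {G : Type u} [Group G] (m l : G) : Type u :=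
  W g G ⧸ normalClosure (relators g m l)

instance (g : ℕ) {G : Type u} [Group G] (m l : G) : Group (TraceGroup g m l) :=
  inferInstanceAs (Group (W g G ⧸ normalClosure (relators g m l)))

/-- the projection -/
def mkT (g : ℕ) {G : Type u} [Group G] (m l : G) : W g G →* TraceGroup g m l :=
  QuotientGroup.mk' (normalClosure (relators g m l))

/-- The quotient of `TraceGroup g m l` by the third term of its lower central series. -/
def Cls (g : ℕ) {G : Type u} [Group G] (m l : G) : Type u :=
  TraceGroup g m l ⧸ (⊤ : Subgroup (TraceGroup g m l)).lowerCentralSeries 2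

instance (g : ℕ) {G : Type u} [Group G] (m l : G) : Group (Cls g m l) :=
  inferInstanceAs (Group (TraceGroup g m l ⧸ (⊤ : Subgroup (TraceGroup g m l)).lowerCentralSeries 2))

/-- the projection -/
def mkC (g : ℕ) {G : Type u} [Group G] (m l : G) : TraceGroup g m l →* Cls g m l :=
  QuotientGroup.mk' ((⊤ : Subgroup (TraceGroup g m l)).lowerCentralSeries 2)

/-- the class of an element of the knot group -/
def ofG (g : ℕ) {G : Type u} [Group G] (m l : G) : G →* Cls g m l :=
  (mkC g m l).comp ((mkT g m l).comp (inG g))

/-- the classes of the free generators -/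
def gn (g : ℕ) {G : Type u} [Group G] (m l : G) (s : Fin g ⊕ Fin g) : Cls g m l :=
  mkC g m l (mkT g m l (inF g G s))

/-- The abelianization of `Cls g m l`, which is also that of `TraceGroup g m l`. -/
def H1 (g : ℕ) {G : Type u} [Group G] (m l : G) : Type u := Abelianization (Cls g m l)

instance (g : ℕ) {G : Type u} [Group G] (m l : G) : CommGroup (H1 g m l) :=
  inferInstanceAs (CommGroup (Abelianization (Cls g m l)))

/-- the class of an element of `Cls g m l` in the abelianization -/
def ab {g : ℕ} {G : Type u} [Group G] {m l : G} (y : Cls g m l) : H1 g m l :=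
  (Abelianization.of y : Abelianization (Cls g m l))

/-- `z` is `m^k ∏ a_i^{v (inl i)} b_i^{v (inr i)}` in the abelianization. -/
def HasCoords {g : ℕ} {G : Type u} [Group G] {m l : G} (z : H1 g m l) (k : ℤ)
    (v : Fin g ⊕ Fin g → ℤ) : Prop :=
  z = ab (ofG g m l m) ^ k * ∏ t, ab (gn g m l t) ^ v t

/-- What is used of a meridian-longitude pair of a knot group. -/
structure IsPeripheral {G : Type u} [Group G] (m l : G) : Prop where
  /-- the meridian normally generates -/
  gen : normalClosure {m} = ⊤
  /-- the abelianization is infinite cyclic on the meridian -/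
  ab : ∃ α : G →* Multiplicative ℤ, α m = Multiplicative.ofAdd 1
  /-- the longitude is null-homologous -/
  long : l ∈ commutator G

end Run7.h420
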