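import Pool.Agent.Run7.h420.TraceGroup

/-! Rigidity of the meridian and of the symplectic form in the class-two quotient of
`π_1(∂X^g(K))`, `g ≥ 2`. -/

set_option autoImplicit false

open Subgroup Matrix
open scoped commutatorElement

namespace Run7.h420

universe u v

section one

variable {g : ℕ} {G : Type u} [Group G] {m l : G}

theorem mult_lcs (P : Type v) [CommGroup P] : (⊤ : Subgroup P).lowerCentralSeries 2 = ⊥ := by
  apply Subgroup.lowerCentralSeries_succ_eq_bot
  intro x _
  rw [mem_center_iff]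
  intro y
  exact mul_comm _ _

/-- vectors of coordinates -/
abbrev Vec (g : ℕ) : Type := Fin g ⊕ Fin g → ℤ

theorem commProd_comm {P : Type v} [CommGroup P] (x : Fin g ⊕ Fin g → P) : commProd g x = 1 := by
  unfold commProd
  have : (fun i : Fin g => ⁅x (Sum.inl i), x (Sum.inr i)⁆) = fun _ => (1 : P) := by
    funext i
    rw [commutatorElement_eq_one_iff_mul_comm]
    exact mul_comm _ _
  rw [this]
  simp

/-- the coordinates with respect to the free generators -/
def cvec (g : ℕ) (m l : G) : Cls g m l →* Multiplicative (Vec g) :=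
  liftC (mult_lcs _) 1 (fun s => Multiplicative.ofAdd (Pi.single s 1))
    (fun s => by simp) (by rw [commProd_comm]; rfl)

@[simp]
theorem cvec_ofG (p : G) : cvec g m l (ofG g m l p) = 1 := by
  simp [cvec]

@[simp]
theorem cvec_gn (s : Fin g ⊕ Fin g) :
    cvec g m l (gn g m l s) = Multiplicative.ofAdd (Pi.single s 1) := by
  simp [cvec]

/-- coordinates, additively -/
def cv (y : Cls g m l) : Vec g := (cvec g m l y).toAdd

@[simp] theorem cv_ofG (p : G) : cv (ofG g m l p) = 0 := by simp [cv]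
@[simp] theorem cv_gn (s : Fin g ⊕ Fin g) : cv (gn g m l s) = Pi.single s 1 := by simp [cv]
@[simp] theorem cv_mul (y z : Cls g m l) : cv (y * z) = cv y + cv z := by simp [cv]
@[simp] theorem cv_one : cv (1 : Cls g m l) = 0 := by simp [cv]
@[simp] theorem cv_inv (y : Cls g m l) : cv y⁻¹ = -cv y := by simp [cv]

/-- test homomorphisms to the Heisenberg group -/
theorem heis_comm (x : Fin g ⊕ Fin g → Heis) : commProd g x =
    ⟨0, 0, ∑ i : Fin g, ((x (Sum.inl i)).x * (x (Sum.inr i)).y -
      (x (Sum.inr i)).x * (x (Sum.inl i)).y)⟩ := by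
  unfold commProd
  have h : ∀ L : List (Heis × Heis), (L.map fun p => ⁅p.1, p.2⁆).prod =
      ⟨0, 0, (L.map fun p => p.1.x * p.2.y - p.2.x * p.1.y).sum⟩ := by
    intro L
    induction L with
    | nil => rfl
    | cons a L ih =>
      rw [List.map_cons, List.prod_cons, ih, Heis.comm_eq, List.map_cons, List.sum_cons]
      ext <;> simp
  have h2 := h (List.ofFn fun i : Fin g => (x (Sum.inl i), x (Sum.inr i)))
  rw [List.map_ofFn, List.map_ofFn] at h2
  rw [← List.sum_ofFn]
  exact h2

/-- the test homomorphism with values `(u_s, w_s, 0)` on the free generators -/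
def test (g : ℕ) (m l : G) (u w : Vec g)
    (h : ∑ i : Fin g, (u (Sum.inl i) * w (Sum.inr i) - u (Sum.inr i) * w (Sum.inl i)) = 0) :
    Cls g m l →* Heis :=
  liftC Heis.lcs_two 1 (fun s => ⟨u s, w s, 0⟩) (fun s => by simp) (by
    rw [heis_comm]
    simp only [h]
    rfl)

theorem test_x (u w : Vec g)
    (h : ∑ i : Fin g, (u (Sum.inl i) * w (Sum.inr i) - u (Sum.inr i) * w (Sum.inl i)) = 0)
    (y : Cls g m l) : (test g m l u w h y).x = cv y ⬝ᵥ u := by
  let D : Multiplicative (Vec g) →* Multiplicative ℤ :=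
    { toFun := fun v => Multiplicative.ofAdd (v.toAdd ⬝ᵥ u)
      map_one' := by simp
      map_mul' := fun a b => by simp [add_dotProduct] }
  have := hom_ext (Heis.px.comp (test g m l u w h)) (D.comp (cvec g m l)) (by
    intro p
    simp [test, Heis.px, D]) (by
    intro s
    simp [test, Heis.px, D]) y
  exact this

theorem test_y (u w : Vec g)
    (h : ∑ i : Fin g, (u (Sum.inl i) * w (Sum.inr i) - u (Sum.inr i) * w (Sum.inl i)) = 0)
    (y : Cls g m l) : (test g m l u w h y).y = cv y ⬝ᵥ w := by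
  let D : Multiplicative (Vec g) →* Multiplicative ℤ :=
    { toFun := fun v => Multiplicative.ofAdd (v.toAdd ⬝ᵥ w)
      map_one' := by simp
      map_mul' := fun a b => by simp [add_dotProduct] }
  have := hom_ext (Heis.py.comp (test g m l u w h)) (D.comp (cvec g m l)) (by
    intro p
    simp [test, Heis.py, D]) (by
    intro s
    simp [test, Heis.py, D]) y
  exact this

/-- central elements have no free coordinates -/
theorem cv_central (hg : 2 ≤ g) (y : Cls g m l) (hy : y ∈ center (Cls g m l)) : cv y = 0 := by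
  have : NeZero g := ⟨by omega⟩
  have : Nontrivial (Fin g) := Fin.nontrivial_iff_two_le.mpr hg
  funext s
  obtain ⟨i, hi⟩ | ⟨i, hi⟩ : (∃ i, s = Sum.inl i) ∨ (∃ i, s = Sum.inr i) := by
    cases s <;> simp
  · subst hi
    obtain ⟨j, hj⟩ := exists_ne i
    have h0 : ∑ k : Fin g, ((Pi.single (Sum.inl i) 1 : Vec g) (Sum.inl k) *
        (Pi.single (Sum.inl j) 1 : Vec g) (Sum.inr k) - (Pi.single (Sum.inl i) 1 : Vec g) (Sum.inr k) *
        (Pi.single (Sum.inl j) 1 : Vec g) (Sum.inl k)) = 0 := by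
      apply Finset.sum_eq_zero
      intro k _
      simp
    have h1 := (mem_center_iff.mp hy) (gn g m l (Sum.inl j))
    have h2 := congrArg (fun z => (test g m l _ _ h0 z).z) h1
    simp only [map_mul, Heis.mul_z, test_x, test_y, cv_gn] at h2
    simp [hj.symm] at h2
    have : (Pi.single (Sum.inl j) (1 : ℤ) : Vec g) (Sum.inl i) = 0 := by
      simp [hj.symm]
    simpa [this, add_comm] using h2
  · subst hi
    obtain ⟨j, hj⟩ := exists_ne i
    have h0 : ∑ k : Fin g, ((Pi.single (Sum.inr i) 1 : Vec g) (Sum.inl k) *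
        (Pi.single (Sum.inr j) 1 : Vec g) (Sum.inr k) - (Pi.single (Sum.inr i) 1 : Vec g) (Sum.inr k) *
        (Pi.single (Sum.inr j) 1 : Vec g) (Sum.inl k)) = 0 := by
      apply Finset.sum_eq_zero
      intro k _
      simp
    have h1 := (mem_center_iff.mp hy) (gn g m l (Sum.inr j))
    have h2 := congrArg (fun z => (test g m l _ _ h0 z).z) h1
    simp only [map_mul, Heis.mul_z, test_x, test_y, cv_gn] at h2
    simp [hj.symm] at h2
    have : (Pi.single (Sum.inr j) (1 : ℤ) : Vec g) (Sum.inr i) = 0 := by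
      simp [hj.symm]
    simpa [this, add_comm] using h2

/-! ### use of the peripheral data -/

/-- the abelianization map -/
def abH (g : ℕ) (m l : G) : Cls g m l →* H1 g m l :=
  (Abelianization.of : Cls g m l →* Abelianization (Cls g m l))

theorem abH_apply (y : Cls g m l) : abH g m l y = ab y := rfl

theorem abH_ker : (abH g m l).ker = commutator (Cls g m l) := Abelianization.ker_of _

theorem ab_mul (y z : Cls g m l) : ab (y * z) = ab y * ab z := map_mul (abH g m l) _ _
theorem ab_inv (y : Cls g m l) : ab y⁻¹ = (ab y)⁻¹ := map_inv (abH g m l) _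
theorem ab_one : ab (1 : Cls g m l) = 1 := map_one (abH g m l)
theorem ab_zpow (y : Cls g m l) (k : ℤ) : ab (y ^ k) = ab y ^ k := map_zpow (abH g m l) _ _

theorem ab_ofG (h : IsPeripheral m l) (p : G) :
    ∃ k : ℤ, ab (ofG g m l p) = ab (ofG g m l m) ^ k := by
  have h1 : normalClosure {m} ≤ (zpowers (ab (ofG g m l m))).comap
      ((abH g m l).comp (ofG g m l)) := by
    apply normalClosure_le_normal
    rw [Set.singleton_subset_iff]
    exact mem_zpowers _
  rw [h.gen] at h1
  obtain ⟨k, hk⟩ := mem_zpowers_iff.mp (h1 (mem_top p))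
  exact ⟨k, hk.symm⟩

theorem center_of_ab (y : Cls g m l) (h : ab y = 1) : y ∈ center (Cls g m l) :=
  comm_le_center (abH_ker (g := g) (m := m) (l := l) ▸ MonoidHom.mem_ker.mpr h)

theorem exists_central (h : IsPeripheral m l) (p : G) :
    ∃ k : ℤ, ∃ c ∈ center (Cls g m l), ofG g m l p = ofG g m l m ^ k * c := by
  obtain ⟨k, hk⟩ := ab_ofG (g := g) h p
  refine ⟨k, (ofG g m l m ^ k)⁻¹ * ofG g m l p, ?_, by group⟩
  apply center_of_ab
  rw [ab_mul, hk, ab_inv, ab_zpow, inv_mul_cancel]

/-- the knot group has trivial commutators in the class-two quotient -/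
theorem ofG_comm (h : IsPeripheral m l) (p q : G) : ofG g m l ⁅p, q⁆ = 1 := by
  obtain ⟨i, c, hc, h1⟩ := exists_central (g := g) h p
  obtain ⟨j, d, hd, h2⟩ := exists_central (g := g) h q
  rw [map_commutatorElement, commutatorElement_eq_one_iff_mul_comm, h1, h2]
  have e1 := mem_center_iff.mp hc
  have e2 := mem_center_iff.mp hd
  calc ofG g m l m ^ i * c * (ofG g m l m ^ j * d)
      = ofG g m l m ^ i * (c * (ofG g m l m ^ j)) * d := by group
    _ = ofG g m l m ^ i * (ofG g m l m ^ j * c) * d := by rw [← e1 (ofG g m l m ^ j)]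
    _ = (ofG g m l m ^ i * ofG g m l m ^ j) * (c * d) := by group
    _ = (ofG g m l m ^ j * ofG g m l m ^ i) * (d * c) := by
        rw [← _root_.zpow_add, add_comm, _root_.zpow_add, e1 d]
    _ = ofG g m l m ^ j * (ofG g m l m ^ i * d) * c := by group
    _ = ofG g m l m ^ j * (d * ofG g m l m ^ i) * c := by rw [← e2 (ofG g m l m ^ i)]
    _ = ofG g m l m ^ j * d * (ofG g m l m ^ i * c) := by group

theorem ofG_commutator (h : IsPeripheral m l) (p : G) (hp : p ∈ commutator G) :
    ofG g m l p = 1 := by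
  have h1 : commutator G ≤ (ofG g m l).ker := by
    rw [commutator_def, commutator_le]
    intro a _ b _
    exact ofG_comm h a b
  exact h1 hp

theorem commProd_gn (h : IsPeripheral m l) : commProd g (gn g m l) = 1 := by
  rw [← long_cls]
  exact ofG_commutator h l h.long

/-- the meridian is central in the class-two quotient -/
theorem mer_central (h : IsPeripheral m l) : ofG g m l m ∈ center (Cls g m l) := by
  rw [mem_center_iff]
  intro y
  have : y ∈ centralizer {ofG g m l m} := by
    apply cls_ind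
    · intro p
      rw [mem_centralizer_singleton_iff]
      have h1 := ofG_comm (g := g) h m p
      rw [map_commutatorElement, commutatorElement_eq_one_iff_mul_comm] at h1
      exact h1.symm
    · intro s
      rw [mem_centralizer_singleton_iff]
      exact (commutatorElement_eq_one_iff_mul_comm.mp (comm_gn s)).symm
  exact mem_centralizer_singleton_iff.mp this

/-- the first homology: meridian and free coordinates -/
theorem ab_eq (h : IsPeripheral m l) (y : Cls g m l) : ∃ k : ℤ,
    ab y = ab (ofG g m l m) ^ k * ∏ s, ab (gn g m l s) ^ (cv y s) := by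
  let D : Cls g m l →* H1 g m l :=
    { toFun := fun y => ab y * (∏ s, ab (gn g m l s) ^ (cv y s))⁻¹
      map_one' := by simp [ab_one]
      map_mul' := fun a b => by
        simp only [ab_mul, cv_mul, Pi.add_apply, _root_.zpow_add, Finset.prod_mul_distrib, mul_inv]
        exact mul_mul_mul_comm _ _ _ _ }
  have h1 : y ∈ (zpowers (ab (ofG g m l m))).comap D := by
    apply cls_ind
    · intro p
      obtain ⟨k, hk⟩ := ab_ofG (g := g) h p
      change ab (ofG g m l p) * (∏ s, ab (gn g m l s) ^ (cv (ofG g m l p) s))⁻¹ ∈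
        zpowers (ab (ofG g m l m))
      rw [hk]
      simp only [cv_ofG, Pi.zero_apply, zpow_zero, Finset.prod_const_one, inv_one, mul_one]
      exact zpow_mem (mem_zpowers _) k
    · intro s
      change ab (gn g m l s) * (∏ t, ab (gn g m l t) ^ (cv (gn g m l s) t))⁻¹ ∈
        zpowers (ab (ofG g m l m))
      rw [cv_gn, Finset.prod_eq_single s]
      · simp
      · intro t _ hts
        simp [hts]
      · simp
  obtain ⟨k, hk⟩ := mem_zpowers_iff.mp h1
  refine ⟨k, ?_⟩
  rw [hk]
  change _ = ab y * (∏ s, ab (gn g m l s) ^ (cv y s))⁻¹ * _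
  rw [inv_mul_cancel_right]

/-- the degree on the meridian -/
theorem exists_deg (h : IsPeripheral m l) : ∃ τ : Cls g m l →* Multiplicative ℤ,
    τ (ofG g m l m) = Multiplicative.ofAdd 1 := by
  obtain ⟨α, hα⟩ := h.ab
  have hl : α l = 1 := by
    have : commutator G ≤ α.ker := Abelianization.commutator_subset_ker α
    exact this h.long
  refine ⟨liftC (mult_lcs _) α (fun _ => 1) (fun s => by simp) (by rw [hl, commProd_comm]), ?_⟩
  rw [liftC_ofG, hα]

end one

section two

variable {g : ℕ} {G : Type u} [Group G] {m l : G} {H : Type v} [Group H] {m' l' : H}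

theorem cv_map_ofG (hg : 2 ≤ g) (hG : IsPeripheral m l) (φ : Cls g m l ≃* Cls g m' l') (p : G) :
    cv (φ (ofG g m l p)) = 0 := by
  have h1 : normalClosure {m} ≤ ((cvec g m' l').comp (φ.toMonoidHom.comp (ofG g m l))).ker := by
    apply normalClosure_le_normal
    rw [Set.singleton_subset_iff]
    have h2 : φ (ofG g m l m) ∈ center (Cls g m' l') := by
      have h3 := mer_central (g := g) hG
      rw [mem_center_iff] at h3 ⊢
      intro z
      obtain ⟨y, rfl⟩ := φ.surjective z
      rw [← map_mul, ← map_mul, h3]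
    have h4 := cv_central hg _ h2
    exact h4
  rw [hG.gen] at h1
  exact h1 (mem_top p)

/-- the matrix of an isomorphism on the free coordinates -/
def mat (φ : Cls g m l ≃* Cls g m' l') : Matrix (Fin g ⊕ Fin g) (Fin g ⊕ Fin g) ℤ :=
  Matrix.of fun s => cv (φ (gn g m l s))

theorem cv_map (hg : 2 ≤ g) (hG : IsPeripheral m l) (φ : Cls g m l ≃* Cls g m' l')
    (y : Cls g m l) : cv (φ y) = cv y ᵥ* mat φ := by
  let D : Multiplicative (Vec g) →* Multiplicative (Vec g) :=
    { toFun := fun v => Multiplicative.ofAdd (v.toAdd ᵥ* mat φ)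
      map_one' := by simp
      map_mul' := fun a b => by simp [add_vecMul] }
  have := hom_ext ((cvec g m' l').comp φ.toMonoidHom) (D.comp (cvec g m l)) (by
    intro p
    have h1 : cvec g m' l' (φ (ofG g m l p)) = 1 := cv_map_ofG hg hG φ p
    simp [D, h1]) (by
    intro s
    change cvec g m' l' (φ (gn g m l s)) = Multiplicative.ofAdd ((cvec g m l (gn g m l s)).toAdd ᵥ* mat φ)
    rw [cvec_gn, toAdd_ofAdd, single_one_vecMul]
    rfl) y
  exact this

theorem mat_mul (hg : 2 ≤ g) (hH : IsPeripheral m' l') (φ : Cls g m l ≃* Cls g m' l') :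
    mat φ * mat φ.symm = 1 := by
  ext s t
  have h1 := cv_map hg hH φ.symm (φ (gn g m l s))
  rw [MulEquiv.symm_apply_apply, cv_gn] at h1
  have h2 := congrFun h1 t
  rw [Matrix.one_apply, Matrix.mul_apply]
  rw [Pi.single_apply] at h2
  simp only [eq_comm (a := t)] at h2
  rw [h2]
  rfl

/-- the standard symplectic form, in coordinates -/
theorem J_form (u w : Vec g) : u ⬝ᵥ (Matrix.J (Fin g) ℤ) *ᵥ w =
    -∑ i : Fin g, (u (Sum.inl i) * w (Sum.inr i) - u (Sum.inr i) * w (Sum.inl i)) := by
  rw [Matrix.J]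
  simp only [dotProduct, Fintype.sum_sum_type, Matrix.mulVec, Matrix.fromBlocks_apply₁₁,
    Matrix.fromBlocks_apply₁₂, Matrix.fromBlocks_apply₂₁, Matrix.fromBlocks_apply₂₂,
    Matrix.zero_apply, Matrix.neg_apply, Matrix.one_apply, zero_mul, Finset.sum_const_zero,
    zero_add, add_zero, neg_mul, ite_mul, one_mul, Finset.sum_neg_distrib,
    Finset.sum_ite_eq, Finset.mem_univ, if_true, Finset.sum_sub_distrib]
  simp only [mul_neg, Finset.sum_neg_distrib]
  ring

/-- the pulled back form vanishes where the standard form does -/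
theorem form_zero (hG : IsPeripheral m l) (φ : Cls g m l ≃* Cls g m' l')
    (u w : Vec g) (h : u ⬝ᵥ (Matrix.J (Fin g) ℤ) *ᵥ w = 0) :
    u ⬝ᵥ ((mat φ)ᵀ * Matrix.J (Fin g) ℤ * mat φ) *ᵥ w = 0 := by
  have h' := h
  rw [J_form, neg_eq_zero] at h'
  have h1 := congrArg (test g m' l' u w h') (congrArg φ (commProd_gn (g := g) hG))
  have h2 := map_commProd ((test g m' l' u w h').comp φ.toMonoidHom) g (gn g m l)
  change test g m' l' u w h' (φ (commProd g (gn g m l))) = _ at h2
  rw [h2, heis_comm, map_one, map_one] at h1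
  have h3 := congrArg Heis.z h1
  change ∑ i : Fin g, (((test g m' l' u w h') (φ (gn g m l (Sum.inl i)))).x *
    ((test g m' l' u w h') (φ (gn g m l (Sum.inr i)))).y -
    ((test g m' l' u w h') (φ (gn g m l (Sum.inr i)))).x *
    ((test g m' l' u w h') (φ (gn g m l (Sum.inl i)))).y) = 0 at h3
  simp only [test_x, test_y] at h3
  have h4 := J_form (mat φ *ᵥ u) (mat φ *ᵥ w)
  have h5 : ∀ (s : Fin g ⊕ Fin g) (v : Vec g), (mat φ *ᵥ v) s = cv (φ (gn g m l s)) ⬝ᵥ v :=
    fun s v => rfl
  simp only [h5] at h4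
  rw [h3, neg_zero] at h4
  rw [← h4, ← Matrix.mulVec_mulVec, ← Matrix.mulVec_mulVec, Matrix.dotProduct_mulVec u,
    Matrix.vecMul_transpose]

/-- an alternating form vanishing where the standard form vanishes is a multiple of it -/
theorem form_eq (hg : 0 < g) (P : Matrix (Fin g ⊕ Fin g) (Fin g ⊕ Fin g) ℤ) (hP : Pᵀ = -P)
    (h : ∀ u w : Vec g, u ⬝ᵥ (Matrix.J (Fin g) ℤ) *ᵥ w = 0 → u ⬝ᵥ P *ᵥ w = 0) :
    ∃ δ : ℤ, P = δ • Matrix.J (Fin g) ℤ := by
  have hs : ∀ (A : Matrix (Fin g ⊕ Fin g) (Fin g ⊕ Fin g) ℤ) (s t : Fin g ⊕ Fin g),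
      (Pi.single s 1 : Vec g) ⬝ᵥ A *ᵥ (Pi.single t 1 : Vec g) = A s t := by
    intro A s t
    simp
  have h0 : ∀ s t, (Matrix.J (Fin g) ℤ) s t = 0 → P s t = 0 := by
    intro s t hst
    rw [← hs P]
    apply h
    rw [hs, hst]
  have hanti : ∀ s t, P t s = - P s t := by
    intro s t
    have := congrFun (congrFun hP s) t
    simpa using this
  have h1 : ∀ i j : Fin g, P (Sum.inl i) (Sum.inr i) = P (Sum.inl j) (Sum.inr j) := by
    intro i j
    by_cases hij : i = j
    · rw [hij]
    · have hJ : ∀ A : Matrix (Fin g ⊕ Fin g) (Fin g ⊕ Fin g) ℤ,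
          (Pi.single (Sum.inl i) 1 + Pi.single (Sum.inr j) 1 : Vec g) ⬝ᵥ
            A *ᵥ (Pi.single (Sum.inr i) 1 + Pi.single (Sum.inl j) 1 : Vec g) =
          A (Sum.inl i) (Sum.inr i) + A (Sum.inl i) (Sum.inl j) +
            (A (Sum.inr j) (Sum.inr i) + A (Sum.inr j) (Sum.inl j)) := by
        intro A
        rw [Matrix.mulVec_add, add_dotProduct, dotProduct_add, dotProduct_add, hs, hs, hs, hs]
      have h2 := h (Pi.single (Sum.inl i) 1 + Pi.single (Sum.inr j) 1)
        (Pi.single (Sum.inr i) 1 + Pi.single (Sum.inl j) 1) (by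
          rw [hJ]
          simp [Matrix.J, hij])
      rw [hJ, h0 (Sum.inl i) (Sum.inl j) (by simp [Matrix.J]),
        h0 (Sum.inr j) (Sum.inr i) (by simp [Matrix.J]), hanti (Sum.inl j) (Sum.inr j)] at h2
      linarith
  refine ⟨-P (Sum.inl ⟨0, hg⟩) (Sum.inr ⟨0, hg⟩), ?_⟩
  ext s t
  rcases s with i | i <;> rcases t with j | j
  · rw [h0 _ _ (by simp [Matrix.J])]
    simp [Matrix.J]
  · by_cases hij : i = j
    · subst hij
      rw [h1 i ⟨0, hg⟩]
      simp [Matrix.J]
    · rw [h0 _ _ (by simp [Matrix.J, hij])]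
      simp [Matrix.J, hij]
  · by_cases hij : i = j
    · subst hij
      rw [hanti (Sum.inl i), h1 i ⟨0, hg⟩]
      simp [Matrix.J]
    · rw [h0 _ _ (by simp [Matrix.J, hij])]
      simp [Matrix.J, hij]
  · rw [h0 _ _ (by simp [Matrix.J])]
    simp [Matrix.J]

theorem pull_eq (hg : 0 < g) (hG : IsPeripheral m l) (φ : Cls g m l ≃* Cls g m' l') :
    ∃ δ : ℤ, (mat φ)ᵀ * Matrix.J (Fin g) ℤ * mat φ = δ • Matrix.J (Fin g) ℤ := by
  apply form_eq hg
  · rw [Matrix.transpose_mul, Matrix.transpose_mul, Matrix.transpose_transpose,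
      Matrix.J_transpose]
    simp [Matrix.mul_assoc]
  · exact form_zero hG φ

/-- the meridian is carried to the meridian or its inverse, and the free coordinates are
transformed by an isometry or anti-isometry of the standard symplectic form -/
theorem rigidity (hg : 2 ≤ g) (hG : IsPeripheral m l) (hH : IsPeripheral m' l')
    (φ : Cls g m l ≃* Cls g m' l') :
    (∃ ε : ℤ, (ε = 1 ∨ ε = -1) ∧ HasCoords (ab (φ (ofG g m l m))) ε 0) ∧
    (∃ M : Matrix (Fin g ⊕ Fin g) (Fin g ⊕ Fin g) ℤ, ∃ δ : ℤ, (δ = 1 ∨ δ = -1) ∧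
      Mᵀ * Matrix.J (Fin g) ℤ * M = δ • Matrix.J (Fin g) ℤ ∧
      ∀ s, ∃ k : ℤ, HasCoords (ab (φ (gn g m l s))) k (M s)) := by
  constructor
  · obtain ⟨k, hk⟩ := ab_eq hH (φ (ofG g m l m))
    obtain ⟨k', hk'⟩ := ab_eq hG (φ.symm (ofG g m' l' m'))
    rw [cv_map_ofG hg hG] at hk
    rw [cv_map_ofG hg hH] at hk'
    simp only [Pi.zero_apply, zpow_zero, Finset.prod_const_one, mul_one] at hk hk'
    refine ⟨k, ?_, by rw [HasCoords, hk]; simp⟩
    obtain ⟨τ, hτ⟩ := exists_deg (g := g) hH
    -- evaluate on the meridian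
    have h1 : ∀ y z : Cls g m l, ab y = ab z → ab (φ y) = ab (φ z) := by
      intro y z hyz
      have h2 : y⁻¹ * z ∈ commutator (Cls g m l) := by
        rw [← abH_ker, MonoidHom.mem_ker, map_mul, map_inv]
        change (ab y)⁻¹ * ab z = 1
        rw [hyz, inv_mul_cancel]
      have h3 : φ (y⁻¹ * z) ∈ commutator (Cls g m' l') := by
        have h4 : (commutator (Cls g m l)).map φ.toMonoidHom ≤ commutator (Cls g m' l') := by
          rw [commutator_def, map_commutator]
          exact commutator_mono le_top le_top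
        exact h4 (mem_map_of_mem φ.toMonoidHom h2)
      rw [← abH_ker, MonoidHom.mem_ker, map_mul, map_inv, map_mul, map_inv] at h3
      change (ab (φ y))⁻¹ * ab (φ z) = 1 at h3
      exact inv_mul_eq_one.mp h3
    have h5 : ab (φ.symm (ofG g m' l' m')) = ab ((ofG g m l m) ^ k') := by
      rw [hk', ab_zpow]
    have h6 := h1 _ _ h5
    rw [MulEquiv.apply_symm_apply, map_zpow] at h6
    have h7 : ab (φ (ofG g m l m) ^ k') = ab (ofG g m' l' m') ^ (k * k') := by
      rw [ab_zpow, hk, ← _root_.zpow_mul]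
    rw [h7] at h6
    let T : H1 g m' l' →* Multiplicative ℤ := Abelianization.lift τ
    have hT : T (ab (ofG g m' l' m')) = τ (ofG g m' l' m') := Abelianization.lift_apply_of _ _
    have h8 := congrArg T h6
    rw [map_zpow, hT] at h8
    rw [hτ, ← ofAdd_zsmul] at h8
    have h9 : (1 : ℤ) = (k * k') • 1 := Multiplicative.ofAdd.injective h8
    rw [smul_eq_mul, mul_one] at h9
    exact Int.isUnit_iff.mp (IsUnit.of_mul_eq_one k' h9.symm)
  · obtain ⟨δ, hδ⟩ := pull_eq (by omega : 0 < g) hG φ
    obtain ⟨δ', hδ'⟩ := pull_eq (by omega : 0 < g) hH φ.symm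
    refine ⟨mat φ, δ, ?_, hδ, ?_⟩
    · have h1 := mat_mul hg hH φ
      have h2 : δ * δ' = 1 := by
        have h3 : (mat φ.symm)ᵀ * ((mat φ)ᵀ * Matrix.J (Fin g) ℤ * mat φ) * mat φ.symm =
            (mat φ * mat φ.symm)ᵀ * Matrix.J (Fin g) ℤ * (mat φ * mat φ.symm) := by
          rw [Matrix.transpose_mul]
          simp only [Matrix.mul_assoc]
        rw [h1, hδ, Matrix.mul_smul, Matrix.smul_mul, hδ', Matrix.transpose_one, Matrix.one_mul,
          Matrix.mul_one, smul_smul] at h3
        have h4 := congrFun (congrFun h3 (Sum.inr ⟨0, by omega⟩)) (Sum.inl ⟨0, by omega⟩)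
        simpa [Matrix.J] using h4
      exact Int.isUnit_iff.mp (IsUnit.of_mul_eq_one δ' h2)
    · intro s
      exact ab_eq hH (φ (gn g m l s))

end two

end Run7.h420
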