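import Pool.Agent.Run7.h420.Defs

/-! Basic facts about the class-two quotient of the fundamental group of the boundary of the
genus `g` trace of a knot. -/

set_option autoImplicit false

open Subgroup
open scoped commutatorElement

namespace Run7.h420

universe u v

/-- The free factor: `inl i` is `a_i`, `inr i` is `b_i`. -/
abbrev FreePart (g : ℕ) : Type := FreeGroup (Fin g ⊕ Fin g)

theorem mkT_surj (g : ℕ) {G : Type u} [Group G] (m l : G) : Function.Surjective (mkT g m l) :=
  QuotientGroup.mk'_surjective _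

theorem mkT_eq_one (g : ℕ) {G : Type u} [Group G] (m l : G) {x : W g G}
    (h : x ∈ normalClosure (relators g m l)) : mkT g m l x = 1 :=
  (QuotientGroup.eq_one_iff _).mpr h

theorem map_commProd {P : Type u} {Q : Type v} [Group P] [Group Q] (f : P →* Q) (g : ℕ)
    (x : Fin g ⊕ Fin g → P) : f (commProd g x) = commProd g fun s => f (x s) := by
  unfold commProd
  rw [map_list_prod, List.map_ofFn]
  congr 2
  funext i
  simp [map_commutatorElement]

section maps

variable {g : ℕ} {G : Type u} [Group G] {m l : G}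

/-- from the knot group -/
def fromG (g : ℕ) (m l : G) : G →* TraceGroup g m l := (mkT g m l).comp (inG g)

/-- the free generators -/
def gen (g : ℕ) (m l : G) (s : Fin g ⊕ Fin g) : TraceGroup g m l :=
  mkT g m l (inF g G s)

/-- the homomorphism on the free product -/
def liftW {P : Type v} [Group P] (f : G →* P) (x : Fin g ⊕ Fin g → P) : W g G →* P :=
  (Monoid.Coprod.lift f (FreeGroup.lift x) : Monoid.Coprod G (FreePart g) →* P)

@[simp]
theorem liftW_inG {P : Type v} [Group P] (f : G →* P) (x : Fin g ⊕ Fin g → P) (p : G) :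
    liftW f x (inG g p) = f p := by
  change (Monoid.Coprod.lift f (FreeGroup.lift x)) (Monoid.Coprod.inl p) = f p
  simp

@[simp]
theorem liftW_inF {P : Type v} [Group P] (f : G →* P) (x : Fin g ⊕ Fin g → P)
    (s : Fin g ⊕ Fin g) : liftW f x (inF g G s) = x s := by
  change (Monoid.Coprod.lift f (FreeGroup.lift x)) (Monoid.Coprod.inr (FreeGroup.of s)) = x s
  simp

/-- the universal property -/
def lift {P : Type v} [Group P] (f : G →* P) (x : Fin g ⊕ Fin g → P)
    (h1 : ∀ s, ⁅f m, x s⁆ = 1) (h2 : f l = commProd g x) : TraceGroup g m l →* P :=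
  QuotientGroup.lift _ (liftW f x) (by
    intro y hy
    have : normalClosure (relators g m l) ≤ (liftW f x).ker := by
      apply normalClosure_le_normal
      rintro z (⟨s, rfl⟩ | rfl)
      · simp only [SetLike.mem_coe, MonoidHom.mem_ker]
        rw [map_commutatorElement, liftW_inG, liftW_inF]
        exact h1 s
      · simp only [SetLike.mem_coe, MonoidHom.mem_ker]
        rw [map_mul, map_inv, map_commProd, liftW_inG, h2]
        simp
    exact this hy)

theorem lift_mkT {P : Type v} [Group P] (f : G →* P) (x : Fin g ⊕ Fin g → P)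
    (h1 : ∀ s, ⁅f m, x s⁆ = 1) (h2 : f l = commProd g x) (y : W g G) :
    lift f x h1 h2 (mkT g m l y) = liftW f x y := rfl

theorem fromG_eq (g : ℕ) (m l p : G) : fromG g m l p = mkT g m l (inG g p) := rfl

@[simp]
theorem lift_fromG {P : Type v} [Group P] (f : G →* P) (x : Fin g ⊕ Fin g → P)
    (h1 : ∀ s, ⁅f m, x s⁆ = 1) (h2 : f l = commProd g x) (y : G) :
    lift f x h1 h2 (fromG g m l y) = f y := by
  rw [fromG_eq, lift_mkT, liftW_inG]

@[simp]
theorem lift_gen {P : Type v} [Group P] (f : G →* P) (x : Fin g ⊕ Fin g → P)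
    (h1 : ∀ s, ⁅f m, x s⁆ = 1) (h2 : f l = commProd g x) (s : Fin g ⊕ Fin g) :
    lift f x h1 h2 (gen g m l s) = x s := by
  rw [gen, lift_mkT, liftW_inF]

theorem comm_gen (s : Fin g ⊕ Fin g) : ⁅fromG g m l m, gen g m l s⁆ = 1 := by
  have h : ⁅inG g m, inF g G s⁆ ∈ normalClosure (relators g m l) :=
    subset_normalClosure (Or.inl ⟨s, rfl⟩)
  have h2 := mkT_eq_one g m l h
  rw [map_commutatorElement] at h2
  exact h2

theorem long_eq : fromG g m l l = commProd g (gen g m l) := by
  have h : inG g l * (commProd g (inF g G))⁻¹ ∈ normalClosure (relators g m l) :=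
    subset_normalClosure (Or.inr rfl)
  have h2 := mkT_eq_one g m l h
  rw [map_mul, map_inv, map_commProd, mul_inv_eq_one] at h2
  exact h2

/-- induction: a subgroup containing the knot group and the free generators is everything -/
theorem mem_of_gens (S : Subgroup (TraceGroup g m l)) (h1 : ∀ p : G, fromG g m l p ∈ S)
    (h2 : ∀ s, gen g m l s ∈ S) (y : TraceGroup g m l) : y ∈ S := by
  obtain ⟨x, rfl⟩ := mkT_surj g m l y
  let f : Monoid.Coprod G (FreePart g) →* TraceGroup g m l := mkT g m l
  change f x ∈ S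
  induction x using Monoid.Coprod.induction_on with
  | inl p => exact h1 p
  | inr w =>
    have : (FreeGroup.lift fun s => gen g m l s) w ∈ S := by
      have h3 : (FreeGroup.lift fun s => gen g m l s).range ≤ S := by
        rw [FreeGroup.range_lift_eq_closure, closure_le]
        rintro _ ⟨s, rfl⟩
        exact h2 s
      exact h3 ⟨w, rfl⟩
    have h4 : (FreeGroup.lift fun s => gen g m l s) = f.comp Monoid.Coprod.inr := by
      ext s
      rw [FreeGroup.lift_apply_of]
      rfl
    rw [h4] at this
    exact this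
  | mul a b ha hb =>
    rw [map_mul]
    exact S.mul_mem ha hb

end maps

/-! ### the Heisenberg group -/

/-- the integral Heisenberg group -/
@[ext]
structure Heis where
  /-- first coordinate -/
  x : ℤ
  /-- second coordinate -/
  y : ℤ
  /-- central coordinate -/
  z : ℤ

namespace Heis

instance : Mul Heis := ⟨fun p q => ⟨p.x + q.x, p.y + q.y, p.z + q.z + p.x * q.y⟩⟩
instance : One Heis := ⟨⟨0, 0, 0⟩⟩
instance : Inv Heis := ⟨fun p => ⟨-p.x, -p.y, -p.z + p.x * p.y⟩⟩

@[simp] theorem mul_x (p q : Heis) : (p * q).x = p.x + q.x := rfl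
@[simp] theorem mul_y (p q : Heis) : (p * q).y = p.y + q.y := rfl
@[simp] theorem mul_z (p q : Heis) : (p * q).z = p.z + q.z + p.x * q.y := rfl
@[simp] theorem one_x : (1 : Heis).x = 0 := rfl
@[simp] theorem one_y : (1 : Heis).y = 0 := rfl
@[simp] theorem one_z : (1 : Heis).z = 0 := rfl
@[simp] theorem inv_x (p : Heis) : p⁻¹.x = -p.x := rfl
@[simp] theorem inv_y (p : Heis) : p⁻¹.y = -p.y := rfl
@[simp] theorem inv_z (p : Heis) : p⁻¹.z = -p.z + p.x * p.y := rfl

instance : Group Heis where
  mul_assoc p q r := by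
    ext
    · simp; ring
    · simp; ring
    · simp; ring
  one_mul p := by ext <;> simp
  mul_one p := by ext <;> simp
  inv_mul_cancel p := by ext <;> simp

/-- the two coordinates as homomorphisms -/
def px : Heis →* Multiplicative ℤ where
  toFun p := Multiplicative.ofAdd p.x
  map_one' := rfl
  map_mul' _ _ := rfl

/-- the two coordinates as homomorphisms -/
def py : Heis →* Multiplicative ℤ where
  toFun p := Multiplicative.ofAdd p.y
  map_one' := rfl
  map_mul' _ _ := rfl

theorem comm_eq (p q : Heis) : ⁅p, q⁆ = ⟨0, 0, p.x * q.y - q.x * p.y⟩ := by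
  rw [commutatorElement_def]
  ext <;> simp <;> ring

theorem central (c : ℤ) (q : Heis) : Commute (⟨0, 0, c⟩ : Heis) q := by
  ext <;> simp <;> ring

theorem lcs_two : (⊤ : Subgroup Heis).lowerCentralSeries 2 = ⊥ := by
  apply Subgroup.lowerCentralSeries_succ_eq_bot
  rw [top_lowerCentralSeries_one, commutator_def, commutator_le]
  intro p _ q _
  rw [comm_eq, mem_center_iff]
  intro r
  exact (central _ r).symm

end Heis

/-! ### the class-two quotient -/

section cls

variable {g : ℕ} {G : Type u} [Group G] {m l : G}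

theorem mkC_surj (g : ℕ) {G : Type u} [Group G] (m l : G) : Function.Surjective (mkC g m l) :=
  QuotientGroup.mk'_surjective _

/-- homomorphisms to groups of class two -/
def liftC {P : Type v} [Group P] (hP : (⊤ : Subgroup P).lowerCentralSeries 2 = ⊥)
    (f : G →* P) (x : Fin g ⊕ Fin g → P)
    (h1 : ∀ s, ⁅f m, x s⁆ = 1) (h2 : f l = commProd g x) : Cls g m l →* P :=
  QuotientGroup.lift _ (lift f x h1 h2) (by
    intro y hy
    have h3 : ((⊤ : Subgroup (TraceGroup g m l)).lowerCentralSeries 2).map (lift f x h1 h2) ≤ ⊥ := by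
      rw [map_lowerCentralSeries, ← hP]
      exact lowerCentralSeries_mono 2 le_top
    have h4 := h3 (mem_map_of_mem _ hy)
    simpa using h4)

@[simp]
theorem liftC_ofG {P : Type v} [Group P] (hP : (⊤ : Subgroup P).lowerCentralSeries 2 = ⊥)
    (f : G →* P) (x : Fin g ⊕ Fin g → P)
    (h1 : ∀ s, ⁅f m, x s⁆ = 1) (h2 : f l = commProd g x) (p : G) :
    liftC hP f x h1 h2 (ofG g m l p) = f p := lift_fromG f x h1 h2 p

@[simp]
theorem liftC_gn {P : Type v} [Group P] (hP : (⊤ : Subgroup P).lowerCentralSeries 2 = ⊥)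
    (f : G →* P) (x : Fin g ⊕ Fin g → P)
    (h1 : ∀ s, ⁅f m, x s⁆ = 1) (h2 : f l = commProd g x) (s : Fin g ⊕ Fin g) :
    liftC hP f x h1 h2 (gn g m l s) = x s := lift_gen f x h1 h2 s

theorem cls_ind (S : Subgroup (Cls g m l)) (h1 : ∀ p : G, ofG g m l p ∈ S)
    (h2 : ∀ s, gn g m l s ∈ S) (y : Cls g m l) : y ∈ S := by
  obtain ⟨x, rfl⟩ := mkC_surj g m l y
  exact mem_of_gens (S.comap (mkC g m l)) h1 h2 x

theorem hom_ext {P : Type v} [Group P] (f h : Cls g m l →* P) (h1 : ∀ p : G, f (ofG g m l p) =
    h (ofG g m l p)) (h2 : ∀ s, f (gn g m l s) = h (gn g m l s)) (y : Cls g m l) : f y = h y :=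
  cls_ind (f.eqLocus h) h1 h2 y

theorem cls_lcs : (⊤ : Subgroup (Cls g m l)).lowerCentralSeries 2 = ⊥ := by
  have h := map_lowerCentralSeries (⊤ : Subgroup (TraceGroup g m l)) (mkC g m l) 2
  rw [map_top_of_surjective _ (mkC_surj g m l)] at h
  rw [← h]
  exact QuotientGroup.map_mk'_self _

theorem comm_le_center : commutator (Cls g m l) ≤ center (Cls g m l) := by
  have h := cls_lcs (g := g) (m := m) (l := l)
  change ⁅commutator (Cls g m l), (⊤ : Subgroup (Cls g m l))⁆ = ⊥ at h
  intro x hx
  rw [mem_center_iff]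
  intro y
  have h2 : ⁅x, y⁆ ∈ (⊥ : Subgroup (Cls g m l)) := by
    rw [← h]
    exact commutator_mem_commutator hx (mem_top y)
  rw [mem_bot, commutatorElement_eq_one_iff_mul_comm] at h2
  exact h2.symm

theorem comm_gn (s : Fin g ⊕ Fin g) : ⁅ofG g m l m, gn g m l s⁆ = 1 := by
  have h := congrArg (mkC g m l) (comm_gen (g := g) (m := m) (l := l) s)
  rw [map_commutatorElement, map_one] at h
  exact h

theorem long_cls : ofG g m l l = commProd g (gn g m l) := by
  have h := congrArg (mkC g m l) (long_eq (g := g) (m := m) (l := l))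
  rw [map_commProd] at h
  exact h

end cls

end Run7.h420
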